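import Pool.Agent.helper58.CRO.SpecA

/-!
# cro:MPR
-/

set_option autoImplicit false

open scoped Manifold ContDiff Topology ENNReal
open MeasureTheory Set

namespace Pool.Agent.CRO

theorem MPR_haar (n : ℕ) : (volume : Measure (PS n)).IsAddHaarMeasure := by
  have h : (Measure.prod (volume : Measure (En n)) (volume : Measure (En n))).IsAddHaarMeasure :=
    Measure.prod.instIsAddHaarMeasure _ _
  exact h

theorem MPR : MPR_stmt := by
  intro n f Φ hΦ hdet t
  have := MPR_haar n
  have hcont : Continuous (Φ t) :=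
    hΦ.cont.comp (Continuous.prodMk continuous_const continuous_id)
  have hinv : ∀ z, Φ (-t) (Φ t z) = z := fun z => by
    rw [← hΦ.add, neg_add_cancel, hΦ.zero]
  have hinv' : ∀ z, Φ t (Φ (-t) z) = z := fun z => by
    rw [← hΦ.add, add_neg_cancel, hΦ.zero]
  refine ⟨hcont.measurable, ?_⟩
  ext A hA
  rw [Measure.map_apply hcont.measurable hA]
  have hB : MeasurableSet (Φ t ⁻¹' A) := hcont.measurable hA
  have h1 := lintegral_abs_det_fderiv_eq_addHaar_image (volume : Measure (PS n)) hB
    (fun z _ => ((hΦ.diff t z).hasFDerivAt).hasFDerivWithinAt)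
    (fun x _ y _ hxy => by rw [← hinv x, ← hinv y, hxy])
  have h2 : Φ t '' (Φ t ⁻¹' A) = A :=
    image_preimage_eq A (fun z => ⟨Φ (-t) z, hinv' z⟩)
  rw [h2] at h1
  rw [← h1]
  simp only [hdet, ENNReal.ofReal_one]
  rw [setLIntegral_const, one_mul]

end Pool.Agent.CRO
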